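import Mathlib
import Pool.Agent.SoficActions.Defs
import Pool.Agent.SoficActions.FreeProduct

set_option autoImplicit false

open Pool.Agent.SoficActions

namespace Pool.Agent.Results.MP_743583_al.FreeProduct

universe u v w

/-- **Free product actions of sofic actions are sofic.** Let `α i : G i → Sym(X)`, `i ∈ ι`, be
sofic actions of groups on one set `X`. Then the action of the free product of the groups `G i`
on `X` which restricts to `α i` on each `G i` is sofic. -/
theorem result {ι : Type u} {G : ι → Type v} [∀ i, Group (G i)] {X : Type w}
    (α : ∀ i, G i →* Equiv.Perm X) (hα : ∀ i, IsSoficAction (α i)) :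
    IsSoficAction (Monoid.CoprodI.lift α) :=
  isSoficAction_lift α hα

end Pool.Agent.Results.MP_743583_al.FreeProduct
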